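import Mathlib
import Pool.Agent.Q30.GrigDepth

/-!
Depth versus word length in the first Grigorchuk group: the optimal constant is `1`.
-/

namespace Pool.Agent.Results.MP_40d7e0_al.DepthConstant

open Q30.Grig

/-- The set of all `lam` for which there is a constant `c` with
`d(g) ≤ lam * log₂|g| + c` for all `g ≠ 1` in the Grigorchuk group. -/
def admissible : Set ℝ :=
  {lam | ∃ c : ℝ, ∀ g ∈ Gamma, g ≠ 1 → (depth g : ℝ) ≤ lam * Real.logb 2 (len g) + c}

theorem one_le_of_mem {lam : ℝ} (h : lam ∈ admissible) : 1 ≤ lam := by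
  obtain ⟨c, hc⟩ := h
  by_contra hlt
  rw [not_le] at hlt
  have hmu : max lam 0 < 1 := max_lt hlt one_pos
  obtain ⟨n, hn⟩ := exists_nat_gt (c / (1 - max lam 0))
  obtain ⟨g, hg, hg1, hlen, hdep⟩ := exists_deep' n
  have h1 := hc g hg hg1
  have hlen0 : 1 ≤ len g := by
    rw [Nat.one_le_iff_ne_zero]
    intro h0
    apply hg1
    obtain ⟨l, hl, -, rfl⟩ := exists_list hg
    rw [h0, List.length_eq_zero_iff] at hl
    subst hl
    rfl
  have hlog0 : 0 ≤ Real.logb 2 (len g) :=
    Real.logb_nonneg (by norm_num) (by exact_mod_cast hlen0)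
  have hlog1 : Real.logb 2 (len g) ≤ n + 1 := by
    have : Real.logb 2 (len g) ≤ Real.logb 2 ((2 : ℝ) ^ (n + 1)) :=
      Real.logb_le_logb_of_le (by norm_num) (by exact_mod_cast hlen0) (by exact_mod_cast hlen)
    rwa [Real.logb_pow, Real.logb_self_eq_one (by norm_num), mul_one, Nat.cast_add,
      Nat.cast_one] at this
  have h2 : lam * Real.logb 2 (len g) ≤ max lam 0 * (n + 1) :=
    (mul_le_mul_of_nonneg_right (le_max_left _ _) hlog0).trans
      (mul_le_mul_of_nonneg_left hlog1 (le_max_right _ _))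
  have h3 : (n : ℝ) + 1 ≤ depth g := by exact_mod_cast hdep
  have h4 : (1 - max lam 0) * (n + 1) ≤ c := by linarith
  have h5 : 0 < 1 - max lam 0 := by linarith
  rw [div_lt_iff₀ h5] at hn
  nlinarith

theorem mem_of_one_le {lam : ℝ} (h : 1 ≤ lam) : lam ∈ admissible := by
  refine ⟨1, fun g hg hg1 => ?_⟩
  have hlen0 : 1 ≤ len g := by
    rw [Nat.one_le_iff_ne_zero]
    intro h0
    apply hg1
    obtain ⟨l, hl, -, rfl⟩ := exists_list hg
    rw [h0, List.length_eq_zero_iff] at hl
    subst hl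
    rfl
  have hlog0 : 0 ≤ Real.logb 2 (len g) :=
    Real.logb_nonneg (by norm_num) (by exact_mod_cast hlen0)
  have h1 : (depth g : ℝ) ≤ Nat.clog 2 (len g) := by exact_mod_cast depth_le hg
  have h2 : (Nat.clog 2 (len g) : ℝ) < Real.logb 2 (len g) + 1 := by
    rw [← Real.natCeil_logb_natCast]
    exact Nat.ceil_lt_add_one hlog0
  nlinarith

/-- The optimal constant `λ*` equals `1`, it is attained, and no `λ < 1` is admissible. -/
theorem result : sInf admissible = 1 ∧ ∀ lam : ℝ, lam ∈ admissible ↔ 1 ≤ lam := by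
  have h : ∀ lam : ℝ, lam ∈ admissible ↔ 1 ≤ lam := fun lam => ⟨one_le_of_mem, mem_of_one_le⟩
  refine ⟨?_, h⟩
  have : admissible = Set.Ici 1 := Set.ext h
  rw [this, csInf_Ici]

end Pool.Agent.Results.MP_40d7e0_al.DepthConstant
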